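import Pool.Agent.R84.Aug

/-!
# The 3-augmented Zarankiewicz numbers grow quadratically

Match the cells of the block (first half of the rows) x (first half of the columns) with the cells of
the block (second half) x (second half) by 2-edges. This augmented graph is simple and generalized
cycle-free and has `⌊m/2⌋ ⌊n/2⌋` edges.
-/

set_option autoImplicit false

namespace Pool.Agent.Results.MP_10302a_co.QuadraticGrowth

open Finset Pool.Agent.R84.Aug

variable {m n : ℕ}

/-- the 2-edge belonging to a cell of the first block -/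
def blockEdge (m n : ℕ) (c : Fin (m / 2) × Fin (n / 2)) : Finset (Cell m n) :=
  {(⟨c.1, by omega⟩, ⟨c.2, by omega⟩), (⟨m / 2 + c.1, by omega⟩, ⟨n / 2 + c.2, by omega⟩)}

theorem blockEdge_meet {c c' : Fin (m / 2) × Fin (n / 2)} {x : Cell m n} (h : x ∈ blockEdge m n c)
    (h' : x ∈ blockEdge m n c') : c = c' := by
  have h1 := c.1.2
  have h1' := c'.1.2
  simp only [blockEdge, mem_insert, mem_singleton] at h h'
  rcases h with rfl | rfl <;> rcases h' with h' | h' <;>
    simp only [Prod.mk.injEq, Fin.mk.injEq] at h'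
  · exact Prod.ext (Fin.ext h'.1) (Fin.ext h'.2)
  · omega
  · omega
  · exact Prod.ext (Fin.ext (by omega)) (Fin.ext (by omega))

theorem blockEdge_inj (m n : ℕ) : Function.Injective (blockEdge m n) := by
  intro c c' h
  have h1 : ((⟨c.1, by omega⟩, ⟨c.2, by omega⟩) : Cell m n) ∈ blockEdge m n c := by
    simp [blockEdge]
  have h2 := h ▸ h1
  exact blockEdge_meet h1 h2

/-- The block configuration. -/
def block (m n : ℕ) : AugGraph m n where
  E1 := ∅
  E2 := univ.image (blockEdge m n)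
  E3 := ∅
  card₂ := by
    intro e he
    obtain ⟨c, _, rfl⟩ := mem_image.1 he
    have h1 := c.1.2
    refine card_pair ?_
    intro h
    have := congrArg (fun x : Cell m n => (x.1 : ℕ)) h
    simp only at this
    omega
  card₃ := by simp

theorem block_simple (m n : ℕ) : (block m n).Simple := by
  constructor
  · intro e _ c _
    exact notMem_empty _
  · intro e he e' he' hne
    simp only [block, union_empty] at he he'
    obtain ⟨c, _, rfl⟩ := mem_image.1 he
    obtain ⟨c', _, rfl⟩ := mem_image.1 he'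
    rw [Finset.disjoint_left]
    intro x hx hx'
    exact hne (by rw [blockEdge_meet hx hx'])

theorem block_occ {i : Fin m} {j : Fin n} (h : (block m n).Occupied (i, j)) :
    ((i : ℕ) < m / 2 ∧ (j : ℕ) < n / 2) ∨ (m / 2 ≤ (i : ℕ) ∧ n / 2 ≤ (j : ℕ)) := by
  rcases h with h | ⟨e, he, hc⟩
  · exact absurd h (notMem_empty _)
  · simp only [block, union_empty] at he
    obtain ⟨c, _, rfl⟩ := mem_image.1 he
    have h1 := c.1.2
    have h2 := c.2.2
    simp only [blockEdge, mem_insert, mem_singleton, Prod.mk.injEq] at hc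
    rcases hc with ⟨rfl, rfl⟩ | ⟨rfl, rfl⟩
    · left
      exact ⟨h1, h2⟩
    · right
      exact ⟨Nat.le_add_right _ _, Nat.le_add_right _ _⟩

theorem block_cycleFree (m n : ℕ) : (block m n).CycleFree := by
  refine cycleFree_of_sides _ ?_ rfl (fun i => (i : ℕ) < m / 2) (fun j => (j : ℕ) < n / 2)
    (fun j => n / 2 ≤ (j : ℕ)) ?_ ?_ ?_
  · rintro ⟨i, k, j, l, _, _, h, _⟩
    exact notMem_empty _ h
  · intro i j hj h
    have := block_occ h
    show (i : ℕ) < m / 2
    have hj' : (j : ℕ) < n / 2 := hj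
    omega
  · intro i j hj h
    have := block_occ h
    show ¬ (i : ℕ) < m / 2
    have hj' : n / 2 ≤ (j : ℕ) := hj
    omega
  · intro e he
    obtain ⟨c, _, rfl⟩ := mem_image.1 he
    exact ⟨_, _, _, _, c.1.2, c.2.2, not_lt.2 (Nat.le_add_right _ _), Nat.le_add_right _ _, rfl⟩

theorem lower (m n : ℕ) : (m / 2) * (n / 2) ≤ z3A m n := by
  refine le_trans (le_of_eq ?_) (le_z3A _ (block_simple m n) (block_cycleFree m n))
  simp [AugGraph.size, block, card_image_of_injective _ (blockEdge_inj m n)]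

/-- For all `m, n ≥ 2` one has `z_{3A}(m,n) ≥ ⌊m/2⌋ ⌊n/2⌋`. Hence there is no constant `C` with
`z_{3A}(m,n) ≤ C (m n^{1/2} + n)` for all `m, n ≥ 2`. -/
theorem result :
    (∀ m n : ℕ, 2 ≤ m → 2 ≤ n → (m / 2) * (n / 2) ≤ z3A m n) ∧
    ¬ ∃ C : ℝ, ∀ m n : ℕ, 2 ≤ m → 2 ≤ n → (z3A m n : ℝ) ≤ C * (m * (n : ℝ) ^ (1 / 2 : ℝ) + n) := by
  refine ⟨fun m n _ _ => lower m n, ?_⟩
  rintro ⟨C, hC⟩
  obtain ⟨s, hs⟩ := exists_nat_gt (max (3 * C) 1)
  have hs1 : (1 : ℝ) < s := (le_max_right _ _).trans_lt hs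
  have hs3 : 3 * C < s := (le_max_left _ _).trans_lt hs
  have hs1' : 1 < s := by exact_mod_cast hs1
  have h1 := hC (4 * s ^ 2) (4 * s ^ 2) (by nlinarith) (by nlinarith)
  have h2 := lower (4 * s ^ 2) (4 * s ^ 2)
  have e1 : 4 * s ^ 2 / 2 = 2 * s ^ 2 := by omega
  rw [e1] at h2
  have h3 : ((2 * s ^ 2 * (2 * s ^ 2) : ℕ) : ℝ) ≤ z3A (4 * s ^ 2) (4 * s ^ 2) := by
    exact_mod_cast h2
  have e2 : (((4 * s ^ 2 : ℕ) : ℝ)) ^ (1 / 2 : ℝ) = 2 * s := by
    rw [← Real.sqrt_eq_rpow]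
    have : (((4 * s ^ 2 : ℕ) : ℝ)) = (2 * (s : ℝ)) ^ 2 := by push_cast; ring
    rw [this, Real.sqrt_sq (by positivity)]
  rw [e2] at h1
  have h4 := h3.trans h1
  push_cast at h4
  have hs0 : (0 : ℝ) < s := by linarith
  have h5 : 4 * (s : ℝ) ^ 4 ≤ C * (8 * s ^ 3 + 4 * s ^ 2) := by
    calc 4 * (s : ℝ) ^ 4 = 2 * s ^ 2 * (2 * s ^ 2) := by ring
      _ ≤ _ := h4
      _ = _ := by ring
  have hCpos : 0 < C := by
    by_contra hneg
    push Not at hneg
    have : C * (8 * (s : ℝ) ^ 3 + 4 * s ^ 2) ≤ 0 :=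
      mul_nonpos_of_nonpos_of_nonneg hneg (by positivity)
    have : 0 < 4 * (s : ℝ) ^ 4 := by positivity
    linarith
  have h6 : C * (8 * (s : ℝ) ^ 3 + 4 * s ^ 2) ≤ C * (12 * s ^ 3) := by
    apply mul_le_mul_of_nonneg_left _ hCpos.le
    nlinarith [pow_pos hs0 2]
  have h7 : C * (12 * (s : ℝ) ^ 3) < 4 * s ^ 4 := by
    have : (3 * C) * (4 * (s : ℝ) ^ 3) < s * (4 * s ^ 3) :=
      mul_lt_mul_of_pos_right hs3 (by positivity)
    nlinarith
  linarith

end Pool.Agent.Results.MP_10302a_co.QuadraticGrowth
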