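import Pool.Agent.R84.Aug

/-!
# The numbers `z_{3L}(m,n)` are not `O(m n^{1/2} + n)`

For `m = 2a` rows and `n = C(m,2) + 2b` columns take the extremal rectangle-free graph `E1` in which
each pair of rows has its own column (with two 1-edges), `b` further columns have one 1-edge in row
`0`, and `b` further columns have one 1-edge in row `a`. The other cells of the first kind of further
columns in the first half of the rows are matched by 2-edges with the other cells of the second kind
of further columns in the second half of the rows.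
-/

set_option autoImplicit false

namespace Pool.Agent.Results.MP_10302a_co.ZarankiewiczLayer

open Finset Pool.Agent.R84.Aug

/-- upper bound for rectangle-free sets -/
theorem card_le_of_noRect {m n : ℕ} (E : Finset (Cell m n)) (hE : ¬ HasRect E) :
    E.card ≤ n + m.choose 2 := by
  classical
  let D : Fin n → Finset (Fin m) := fun j => univ.filter fun i => (i, j) ∈ E
  have h1 : E.card = ∑ j, (D j).card := by
    rw [card_eq_sum_card_fiberwise (f := Prod.snd) (t := univ) (fun _ _ => mem_univ _)]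
    refine sum_congr rfl fun j _ => ?_
    refine card_bij (fun c _ => c.1) ?_ ?_ ?_
    · rintro ⟨i, j'⟩ hc
      simp only [mem_filter] at hc
      obtain ⟨hc, rfl⟩ := hc
      simpa [D] using hc
    · rintro ⟨i, j'⟩ hc ⟨i', j''⟩ hc' hii
      simp only [mem_filter] at hc hc' hii
      rw [Prod.mk.injEq]
      exact ⟨hii, hc.2.trans hc'.2.symm⟩
    · intro i hi
      refine ⟨(i, j), ?_, rfl⟩
      simpa [D] using hi
  have h2 : ∀ j, (D j).card ≤ 1 + ((D j).powersetCard 2).card := by
    intro j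
    rw [card_powersetCard]
    generalize (D j).card = d
    rcases d with _ | _ | d
    · simp
    · simp
    · have : d + 1 ≤ (d + 1 + 1).choose 2 := by
        rw [Nat.choose_succ_succ' (d + 1) 1, Nat.choose_one_right]
        omega
      omega
  have h3 : ∑ j, ((D j).powersetCard 2).card ≤ m.choose 2 := by
    rw [← card_biUnion]
    · calc (univ.biUnion fun j => (D j).powersetCard 2).card
          ≤ ((univ : Finset (Fin m)).powersetCard 2).card := by
            apply card_le_card
            intro s hs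
            obtain ⟨j, _, hj⟩ := mem_biUnion.1 hs
            rw [mem_powersetCard] at hj ⊢
            exact ⟨subset_univ _, hj.2⟩
        _ = m.choose 2 := by rw [card_powersetCard, card_univ, Fintype.card_fin]
    · intro j _ l _ hjl
      rw [Function.onFun, Finset.disjoint_left]
      intro s hs hs'
      rw [mem_powersetCard] at hs hs'
      obtain ⟨x, y, hxy, rfl⟩ := card_eq_two.1 hs.2
      have a1 := hs.1 (show x ∈ ({x, y} : Finset (Fin m)) by simp)
      have a2 := hs.1 (show y ∈ ({x, y} : Finset (Fin m)) by simp)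
      have a3 := hs'.1 (show x ∈ ({x, y} : Finset (Fin m)) by simp)
      have a4 := hs'.1 (show y ∈ ({x, y} : Finset (Fin m)) by simp)
      simp only [D, mem_filter, mem_univ, true_and] at a1 a2 a3 a4
      exact hE ⟨x, y, j, l, hxy, hjl, a1, a3, a2, a4⟩
  calc E.card = ∑ j, (D j).card := h1
    _ ≤ ∑ j, (1 + ((D j).powersetCard 2).card) := sum_le_sum fun j _ => h2 j
    _ = n + ∑ j, ((D j).powersetCard 2).card := by
        rw [sum_add_distrib, sum_const, card_univ, Fintype.card_fin, smul_eq_mul, mul_one]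
    _ ≤ n + m.choose 2 := Nat.add_le_add_left h3 _

section construction

variable (a b : ℕ)

/-- pairs of rows -/
abbrev Pairs : Type := {s : Finset (Fin (2 * a)) // s.card = 2}

/-- the columns -/
abbrev Cols : Type := Pairs a ⊕ (Bool × Fin b)

/-- the number of columns -/
def N : ℕ := (2 * a).choose 2 + 2 * b

theorem card_cols : Fintype.card (Cols a b) = N a b := by
  rw [Fintype.card_sum, Fintype.card_prod, Fintype.card_bool, Fintype.card_fin]
  congr 1
  rw [Fintype.card_finset_len, Fintype.card_fin]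

/-- the numbering of the columns -/
noncomputable def num : Cols a b ≃ Fin (N a b) := Fintype.equivFinOfCardEq (card_cols a b)

/-- the 2-edges -/
noncomputable def edge (c : Fin (a - 1) × Fin b) : Finset (Cell (2 * a) (N a b)) :=
  {(⟨c.1 + 1, by omega⟩, num a b (Sum.inr (false, c.2))),
   (⟨a + (c.1 + 1), by omega⟩, num a b (Sum.inr (true, c.2)))}

theorem edge_meet {c c' : Fin (a - 1) × Fin b} {x : Cell (2 * a) (N a b)} (h : x ∈ edge a b c)
    (h' : x ∈ edge a b c') : c = c' := by
  have h1 := c.1.2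
  have h1' := c'.1.2
  simp only [edge, mem_insert, mem_singleton] at h h'
  rcases h with rfl | rfl <;> rcases h' with h' | h' <;>
    simp only [Prod.mk.injEq, Fin.mk.injEq, EmbeddingLike.apply_eq_iff_eq, Sum.inr.injEq,
      true_and, reduceCtorEq, false_and, and_false] at h'
  · exact Prod.ext (Fin.ext (by omega)) h'.2
  · exact Prod.ext (Fin.ext (by omega)) h'.2

theorem edge_inj : Function.Injective (edge a b) := by
  intro c c' h
  have h1 : ((⟨c.1 + 1, by omega⟩, num a b (Sum.inr (false, c.2))) : Cell (2 * a) (N a b)) ∈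
      edge a b c := by simp [edge]
  have h2 := h ▸ h1
  exact edge_meet a b h1 h2

variable (ha : 1 ≤ a)

/-- the rows in which a column has a 1-edge -/
def rows : Cols a b → Finset (Fin (2 * a))
  | Sum.inl s => s.1
  | Sum.inr (false, _) => {⟨0, by omega⟩}
  | Sum.inr (true, _) => {⟨a, by omega⟩}

/-- The augmented graph. -/
noncomputable def G : AugGraph (2 * a) (N a b) where
  E1 := univ.filter fun c => c.1 ∈ rows a b ha ((num a b).symm c.2)
  E2 := univ.image (edge a b)
  E3 := ∅
  card₂ := by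
    intro e he
    obtain ⟨c, _, rfl⟩ := mem_image.1 he
    refine card_pair ?_
    intro h
    have := congrArg (fun x : Cell (2 * a) (N a b) => (x.1 : ℕ)) h
    simp only at this
    omega
  card₃ := by simp

theorem mem_E1 {i : Fin (2 * a)} {j : Fin (N a b)} :
    (i, j) ∈ (G a b ha).E1 ↔ i ∈ rows a b ha ((num a b).symm j) := by
  simp [G]

theorem G_simple : (G a b ha).Simple := by
  constructor
  · intro e he c hc hcE
    simp only [G, union_empty] at he
    obtain ⟨x, _, rfl⟩ := mem_image.1 he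
    have h1 := x.1.2
    simp only [edge, mem_insert, mem_singleton] at hc
    rcases hc with rfl | rfl
    · rw [mem_E1, Equiv.symm_apply_apply] at hcE
      simp [rows] at hcE
    · rw [mem_E1, Equiv.symm_apply_apply] at hcE
      simp [rows] at hcE
  · intro e he e' he' hne
    simp only [G, union_empty] at he he'
    obtain ⟨c, _, rfl⟩ := mem_image.1 he
    obtain ⟨c', _, rfl⟩ := mem_image.1 he'
    rw [Finset.disjoint_left]
    intro x hx hx'
    exact hne (by rw [edge_meet a b hx hx'])

theorem occ_false {i : Fin (2 * a)} {y : Fin b}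
    (h : (G a b ha).Occupied (i, num a b (Sum.inr (false, y)))) : (i : ℕ) < a := by
  rcases h with h | ⟨e, he, hc⟩
  · rw [mem_E1, Equiv.symm_apply_apply] at h
    simp only [rows, mem_singleton] at h
    rw [h]
    exact ha
  · simp only [G, union_empty] at he
    obtain ⟨c, _, rfl⟩ := mem_image.1 he
    have h1 := c.1.2
    simp only [edge, mem_insert, mem_singleton, Prod.mk.injEq, EmbeddingLike.apply_eq_iff_eq,
      Sum.inr.injEq, reduceCtorEq, false_and, and_false, or_false] at hc
    rw [hc.1]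
    show (c.1 : ℕ) + 1 < a
    omega

theorem occ_true {i : Fin (2 * a)} {y : Fin b}
    (h : (G a b ha).Occupied (i, num a b (Sum.inr (true, y)))) : a ≤ (i : ℕ) := by
  rcases h with h | ⟨e, he, hc⟩
  · rw [mem_E1, Equiv.symm_apply_apply] at h
    simp only [rows, mem_singleton] at h
    rw [h]
  · simp only [G, union_empty] at he
    obtain ⟨c, _, rfl⟩ := mem_image.1 he
    simp only [edge, mem_insert, mem_singleton, Prod.mk.injEq, EmbeddingLike.apply_eq_iff_eq,
      Sum.inr.injEq, reduceCtorEq, false_and, and_false, false_or] at hc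
    rw [hc.1]
    exact Nat.le_add_right _ _

theorem G_noRect : ¬ HasRect (G a b ha).E1 := by
  rintro ⟨i, k, j, l, hik, hjl, h1, h2, h3, h4⟩
  rw [mem_E1] at h1 h2 h3 h4
  have key : ∀ c : Cols a b, i ∈ rows a b ha c → k ∈ rows a b ha c →
      ∃ s : Pairs a, c = Sum.inl s ∧ s.1 = {i, k} := by
    rintro (s | ⟨β, y⟩) hi hk
    · refine ⟨s, rfl, ?_⟩
      have hsub : ({i, k} : Finset (Fin (2 * a))) ⊆ s.1 := by
        intro x hx
        simp only [mem_insert, mem_singleton] at hx
        rcases hx with rfl | rfl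
        · exact hi
        · exact hk
      exact (eq_of_subset_of_card_le hsub (by rw [s.2, card_pair hik])).symm
    · exfalso
      cases β
      · simp only [rows, mem_singleton] at hi hk
        exact hik (hi.trans hk.symm)
      · simp only [rows, mem_singleton] at hi hk
        exact hik (hi.trans hk.symm)
  obtain ⟨s, hs, hs'⟩ := key _ h1 h3
  obtain ⟨t, ht, ht'⟩ := key _ h2 h4
  have hst : s = t := Subtype.ext (hs'.trans ht'.symm)
  apply hjl
  apply (num a b).symm.injective
  rw [hs, ht, hst]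

theorem G_cycleFree : (G a b ha).CycleFree := by
  refine cycleFree_of_sides _ (G_noRect a b ha) rfl (fun i => (i : ℕ) < a)
    (fun j => ∃ y, j = num a b (Sum.inr (false, y)))
    (fun j => ∃ y, j = num a b (Sum.inr (true, y))) ?_ ?_ ?_
  · rintro i j ⟨y, rfl⟩ h
    exact occ_false a b ha h
  · rintro i j ⟨y, rfl⟩ h
    exact not_lt.2 (occ_true a b ha h)
  · intro e he
    obtain ⟨c, _, rfl⟩ := mem_image.1 he
    have h1 := c.1.2
    refine ⟨_, _, _, _, ?_, ⟨c.2, rfl⟩, ?_, ⟨c.2, rfl⟩, rfl⟩
    · show (c.1 : ℕ) + 1 < a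
      omega
    · show ¬ a + ((c.1 : ℕ) + 1) < a
      omega

theorem G_E1_card : (G a b ha).E1.card = N a b + (2 * a).choose 2 := by
  classical
  have h1 : (G a b ha).E1.card = ∑ j : Fin (N a b), (rows a b ha ((num a b).symm j)).card := by
    rw [card_eq_sum_card_fiberwise (f := Prod.snd) (t := univ) (fun _ _ => mem_univ _)]
    refine sum_congr rfl fun j _ => ?_
    refine card_bij (fun c _ => c.1) ?_ ?_ ?_
    · rintro ⟨i, j'⟩ hc
      simp only [mem_filter] at hc
      obtain ⟨hc, rfl⟩ := hc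
      exact (mem_E1 a b ha).1 hc
    · rintro ⟨i, j'⟩ hc ⟨i', j''⟩ hc' hii
      simp only [mem_filter] at hc hc' hii
      rw [Prod.mk.injEq]
      exact ⟨hii, hc.2.trans hc'.2.symm⟩
    · intro i hi
      refine ⟨(i, j), ?_, rfl⟩
      rw [mem_filter]
      exact ⟨(mem_E1 a b ha).2 hi, rfl⟩
  rw [h1, Equiv.sum_comp (num a b).symm (fun c => (rows a b ha c).card), Fintype.sum_sum_type]
  have h2 : ∑ s : Pairs a, (rows a b ha (Sum.inl s)).card = 2 * (2 * a).choose 2 := by
    have : ∀ s : Pairs a, (rows a b ha (Sum.inl s)).card = 2 := fun s => s.2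
    rw [sum_congr rfl fun s _ => this s, sum_const, card_univ, Fintype.card_finset_len,
      Fintype.card_fin, smul_eq_mul, mul_comm]
  have h3 : ∑ x : Bool × Fin b, (rows a b ha (Sum.inr x)).card = 2 * b := by
    have : ∀ x : Bool × Fin b, (rows a b ha (Sum.inr x)).card = 1 := by
      rintro ⟨β, y⟩
      cases β <;> simp [rows]
    rw [sum_congr rfl fun x _ => this x, sum_const, card_univ, Fintype.card_prod,
      Fintype.card_bool, Fintype.card_fin, smul_eq_mul, mul_one]
  rw [h2, h3]
  unfold N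
  ring

include ha in
theorem z_eq : z (2 * a) (N a b) = N a b + (2 * a).choose 2 := by
  apply le_antisymm
  · refine csSup_le ⟨_, (G a b ha).E1, G_noRect a b ha, rfl⟩ ?_
    rintro M ⟨E, hE, rfl⟩
    exact card_le_of_noRect E hE
  · refine le_csSup ⟨N a b + (2 * a).choose 2, ?_⟩
      ⟨(G a b ha).E1, G_noRect a b ha, G_E1_card a b ha⟩
    rintro M ⟨E, hE, rfl⟩
    exact card_le_of_noRect E hE

include ha in
theorem lower : (a - 1) * b ≤ z3L (2 * a) (N a b) := by
  refine le_trans ?_ (le_z3L (G a b ha) (G_simple a b ha) (G_cycleFree a b ha)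
    (by rw [G_E1_card, z_eq a b ha]))
  have : (G a b ha).E2.card = (a - 1) * b := by
    simp [G, card_image_of_injective _ (edge_inj a b)]
  unfold AugGraph.size
  omega

end construction

/-- There is no constant `C` with `z_{3L}(m,n) ≤ C (m n^{1/2} + n)` for all `m, n ≥ 2`. More
precisely, for `m = 2a` and `n = C(m,2) + 2b` one has `z_{3L}(m,n) ≥ (a - 1) b`. -/
theorem result :
    (∀ a b : ℕ, 1 ≤ a → (a - 1) * b ≤ z3L (2 * a) ((2 * a).choose 2 + 2 * b)) ∧
    ¬ ∃ C : ℝ, ∀ m n : ℕ, 2 ≤ m → 2 ≤ n → (z3L m n : ℝ) ≤ C * (m * (n : ℝ) ^ (1 / 2 : ℝ) + n) := by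
  refine ⟨fun a b ha => lower a b ha, ?_⟩
  rintro ⟨C, hC⟩
  obtain ⟨c, hc⟩ := exists_nat_gt (max (8 * C) 1)
  have hc1 : (1 : ℝ) < c := (le_max_right _ _).trans_lt hc
  have hc8 : 8 * C < c := (le_max_left _ _).trans_lt hc
  have hc1' : 1 < c := by exact_mod_cast hc1
  -- `a = c + 1`, `b = a ^ 2`, so that `n ≤ 4 a ^ 2`
  obtain ⟨a, rfl⟩ : ∃ a, a = c + 1 := ⟨_, rfl⟩
  have h2 := lower (c + 1) ((c + 1) ^ 2) (by omega)
  have hch : (2 * (c + 1)).choose 2 = (c + 1) * (2 * c + 1) := by
    rw [Nat.choose_two_right]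
    have : 2 * (c + 1) * (2 * (c + 1) - 1) = 2 * ((c + 1) * (2 * c + 1)) := by
      have : 2 * (c + 1) - 1 = 2 * c + 1 := by omega
      rw [this]
      ring
    rw [this]
    omega
  have hN : N (c + 1) ((c + 1) ^ 2) ≤ (2 * (c + 1)) ^ 2 := by
    unfold N
    rw [hch]
    nlinarith
  have hN2 : 2 ≤ N (c + 1) ((c + 1) ^ 2) := by
    unfold N
    nlinarith [Nat.zero_le ((2 * (c + 1)).choose 2)]
  have h1 := hC (2 * (c + 1)) (N (c + 1) ((c + 1) ^ 2)) (by omega) hN2
  have e2 : ((N (c + 1) ((c + 1) ^ 2) : ℕ) : ℝ) ^ (1 / 2 : ℝ) ≤ 2 * (c + 1) := by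
    rw [← Real.sqrt_eq_rpow]
    rw [Real.sqrt_le_left (by positivity)]
    exact_mod_cast hN
  have hNr : ((N (c + 1) ((c + 1) ^ 2) : ℕ) : ℝ) ≤ 4 * (c + 1) ^ 2 := by
    calc ((N (c + 1) ((c + 1) ^ 2) : ℕ) : ℝ) ≤ (2 * ((c : ℝ) + 1)) ^ 2 := by exact_mod_cast hN
      _ = _ := by ring
  have h3 : (c : ℝ) * (c + 1) ^ 2 ≤ z3L (2 * (c + 1)) (N (c + 1) ((c + 1) ^ 2)) := by
    have : (c + 1 - 1) * (c + 1) ^ 2 = c * (c + 1) ^ 2 := by simp
    rw [this] at h2
    exact_mod_cast h2
  have hCpos : 0 < C := by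
    by_contra hneg
    push Not at hneg
    have h4 : C * (((2 * (c + 1) : ℕ) : ℝ) * ((N (c + 1) ((c + 1) ^ 2) : ℕ) : ℝ) ^ (1 / 2 : ℝ) +
        ((N (c + 1) ((c + 1) ^ 2) : ℕ) : ℝ)) ≤ 0 :=
      mul_nonpos_of_nonpos_of_nonneg hneg (by positivity)
    have h5 : (0 : ℝ) < c * (c + 1) ^ 2 := by positivity
    linarith
  have h6 : C * (((2 * (c + 1) : ℕ) : ℝ) * ((N (c + 1) ((c + 1) ^ 2) : ℕ) : ℝ) ^ (1 / 2 : ℝ) +
        ((N (c + 1) ((c + 1) ^ 2) : ℕ) : ℝ)) ≤ C * (8 * ((c : ℝ) + 1) ^ 2) := by
    apply mul_le_mul_of_nonneg_left _ hCpos.le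
    have h7 : (((2 * (c + 1) : ℕ) : ℝ)) * ((N (c + 1) ((c + 1) ^ 2) : ℕ) : ℝ) ^ (1 / 2 : ℝ) ≤
        (2 * ((c : ℝ) + 1)) * (2 * (c + 1)) := by
      push_cast
      exact mul_le_mul_of_nonneg_left e2 (by positivity)
    nlinarith
  have h8 : C * (8 * ((c : ℝ) + 1) ^ 2) < c * (c + 1) ^ 2 := by
    have : (8 * C) * ((c : ℝ) + 1) ^ 2 < c * (c + 1) ^ 2 :=
      mul_lt_mul_of_pos_right hc8 (by positivity)
    linarith
  linarith

end Pool.Agent.Results.MP_10302a_co.ZarankiewiczLayer
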